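import Pool.Agent.R672.RFV.Fin

/-!
# The soluble varieties all of whose finitely generated groups are residually finite

For a soluble variety `V` of groups the finitely generated groups in `V` are residually finite if
and only if `V` satisfies one of the explicit laws

  `[b, m] = ∏ₖ γₖ [b, t^iₖ m t^(-iₖ)]^eₖ γₖ⁻¹`  with `iₖ ≠ 0`, `eₖ ∈ ℤ` and words `γₖ` in `b, m, t`,

and if and only if in every group of `V` an element `b` which commutes with all the conjugates
`t^i m t^(-i)`, `i ≠ 0`, commutes with `m`. The condition can also be read off from one explicit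
3-generator group.
-/

set_option autoImplicit false

namespace Pool.Agent.Results.MP_364ede_al.Classification

open scoped commutatorElement

/-- `G` belongs to the variety of groups defined by the laws `w = 1`, `w ∈ W`. -/
def InVariety (W : Set (FreeGroup ℕ)) (G : Type) [Group G] : Prop :=
  ∀ w ∈ W, ∀ f : ℕ → G, FreeGroup.lift f w = 1

/-- the variety defined by `W` is soluble: the derived lengths of its groups are bounded. -/
def SolubleVariety (W : Set (FreeGroup ℕ)) : Prop :=
  ∃ d : ℕ, ∀ (G : Type) [Group G], InVariety W G → derivedSeries G d = ⊥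

/-- `G` is residually finite: for every `g ≠ 1` there is a normal subgroup of finite index which
does not contain `g`. -/
def ResiduallyFinite (G : Type) [Group G] : Prop :=
  ∀ g : G, g ≠ 1 → ∃ N : Subgroup G, N.Normal ∧ N.FiniteIndex ∧ g ∉ N

/-- `G` is generated by three elements. -/
def ThreeGenerated (G : Type) [Group G] : Prop :=
  ∃ a b c : G, Subgroup.closure {a, b, c} = ⊤

/-- The variety defined by `W` satisfies a law
`[b, m] = ∏ₖ γₖ [b, t^iₖ m t^(-iₖ)]^eₖ γₖ⁻¹` with integers `iₖ ≠ 0`, integers `eₖ` and words `γₖ`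
in `b`, `m`, `t`. -/
def SatisfiesCommutatorLaw (W : Set (FreeGroup ℕ)) : Prop :=
  ∃ (n : ℕ) (γ : Fin n → FreeGroup (Fin 3)) (i e : Fin n → ℤ), (∀ k, i k ≠ 0) ∧
    ∀ (G : Type) [Group G], InVariety W G → ∀ b m t : G,
      ⁅b, m⁆ = (List.ofFn fun k : Fin n =>
        FreeGroup.lift ![b, m, t] (γ k) * ⁅b, t ^ (i k) * m * t ^ (-(i k))⁆ ^ (e k) *
          (FreeGroup.lift ![b, m, t] (γ k))⁻¹).prod

/-- In every group of the variety defined by `W`, an element `b` which commutes with
`t^i m t^(-i)` for all integers `i ≠ 0` also commutes with `m`. -/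
def CommutationRule (W : Set (FreeGroup ℕ)) : Prop :=
  ∀ (G : Type) [Group G], InVariety W G → ∀ b m t : G,
    (∀ i : ℤ, i ≠ 0 → Commute b (t ^ i * m * t ^ (-i))) → Commute b m

/-- the relators of the test group: all values of the words of `W` in the free group on `b`, `m`,
`t` (the free generators `0`, `1`, `2`), and the commutators `[b, t^i m t^(-i)]`, `i ≠ 0`. -/
def relators (W : Set (FreeGroup ℕ)) : Set (FreeGroup (Fin 3)) :=
  {x | ∃ w ∈ W, ∃ f : ℕ → FreeGroup (Fin 3), x = FreeGroup.lift f w} ∪
    {x | ∃ i : ℤ, i ≠ 0 ∧ x = ⁅(FreeGroup.of 0 : FreeGroup (Fin 3)),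
      FreeGroup.of 2 ^ i * FreeGroup.of 1 * FreeGroup.of 2 ^ (-i)⁆}

/-- the test group of the variety defined by `W`. -/
abbrev TestGroup (W : Set (FreeGroup ℕ)) : Type :=
  FreeGroup (Fin 3) ⧸ Subgroup.normalClosure (relators W)

/-- `G` satisfies the maximal condition on normal subgroups: every normal subgroup of `G` is the
normal closure of a finite set. -/
def MaxNormal (G : Type) [Group G] : Prop :=
  ∀ N : Subgroup G, N.Normal → ∃ S : Finset G, N = Subgroup.normalClosure (S : Set G)

/-- `G` is Hopfian: every surjective endomorphism is injective. -/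
def Hopfian (G : Type) [Group G] : Prop :=
  ∀ φ : G →* G, Function.Surjective φ → Function.Injective φ

/-- there are only countably many isomorphism classes of finitely generated groups in the variety
defined by `W`: every family of pairwise non-isomorphic finitely generated groups in it is
countable. -/
def CountableVariety (W : Set (FreeGroup ℕ)) : Prop :=
  ∀ (ι : Type) (G : ι → Type) [∀ i, Group (G i)], (∀ i, Group.FG (G i)) →
    (∀ i, InVariety W (G i)) → (∀ i j, Nonempty (G i ≃* G j) → i = j) → Countable ι

open Pool.Agent.H53R2 Pool.Agent.Y968.SV Pool.Agent.R672.RFV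

theorem test_inVariety (W : Set (FreeGroup ℕ)) : InVariety W (TestGroup W) := by
  intro w hw f
  choose f' hf' using fun k => QuotientGroup.mk'_surjective
    (Subgroup.normalClosure (relators W)) (f k)
  have h1 : FreeGroup.lift f =
      (QuotientGroup.mk' (Subgroup.normalClosure (relators W))).comp (FreeGroup.lift f') := by
    apply FreeGroup.ext_hom
    intro k
    rw [MonoidHom.comp_apply, FreeGroup.lift_apply_of, FreeGroup.lift_apply_of, hf']
  rw [h1, MonoidHom.comp_apply, QuotientGroup.mk'_apply, QuotientGroup.eq_one_iff]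
  exact Subgroup.subset_normalClosure (Or.inl ⟨w, hw, f', rfl⟩)

theorem test_three (W : Set (FreeGroup ℕ)) : ThreeGenerated (TestGroup W) := by
  let q := QuotientGroup.mk' (Subgroup.normalClosure (relators W))
  refine ⟨q (FreeGroup.of 0), q (FreeGroup.of 1), q (FreeGroup.of 2), ?_⟩
  have h1 : ({q (FreeGroup.of 0), q (FreeGroup.of 1), q (FreeGroup.of 2)} : Set (TestGroup W)) =
      q '' Set.range FreeGroup.of := by
    rw [← Set.range_comp]
    ext x
    constructor
    · rintro (rfl | rfl | rfl)
      · exact ⟨0, rfl⟩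
      · exact ⟨1, rfl⟩
      · exact ⟨2, rfl⟩
    · rintro ⟨i, rfl⟩
      fin_cases i
      · exact Or.inl rfl
      · exact Or.inr (Or.inl rfl)
      · exact Or.inr (Or.inr rfl)
  rw [h1, ← MonoidHom.map_closure, FreeGroup.closure_range_of, ← MonoidHom.range_eq_map,
    MonoidHom.range_eq_top]
  exact QuotientGroup.mk'_surjective _

theorem test_law (W : Set (FreeGroup ℕ)) (h : ResiduallyFinite (TestGroup W)) :
    ∃ u : UI, ∀ (G : Type) [Group G], InVar W G → u.Grp G := by
  let q := QuotientGroup.mk' (Subgroup.normalClosure (relators W))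
  have h1 := comm_of_rfin h (q (FreeGroup.of 0)) (q (FreeGroup.of 1)) (q (FreeGroup.of 2)) (by
    intro i hi
    have h2 : q ⁅(FreeGroup.of 0 : FreeGroup (Fin 3)),
        FreeGroup.of 2 ^ i * FreeGroup.of 1 * FreeGroup.of 2 ^ (-i)⁆ = 1 :=
      (QuotientGroup.eq_one_iff _).2 (Subgroup.subset_normalClosure (Or.inr ⟨i, hi, rfl⟩))
    rw [map_commutatorElement, commutatorElement_eq_one_iff_mul_comm, map_mul, map_mul,
      map_zpow, map_zpow] at h2
    exact h2)
  rw [← commutatorElement_eq_one_iff_mul_comm, ← map_commutatorElement] at h1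
  have h2 : ⁅(FreeGroup.of 0 : FreeGroup (Fin 3)), FreeGroup.of 1⁆ ∈
      Subgroup.normalClosure (relators W) := (QuotientGroup.eq_one_iff _).1 h1
  apply M_extract W
  have h3 : Subgroup.normalClosure (relators W) ≤ (Subgroup.normalClosure
      {x : RF W 3 | ∃ j : ℤ, j ≠ 0 ∧
        x = ⁅(RF.gen W 0 : RF W 3), RF.gen W 2 ^ j * RF.gen W 1 * RF.gen W 2 ^ (-j)⁆}).comap
      (QuotientGroup.mk' (verb W 3)) := by
    apply Subgroup.normalClosure_le_normal
    rintro x (hx | ⟨i, hi, rfl⟩)
    · have h4 : QuotientGroup.mk' (verb W 3) x = 1 :=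
        (QuotientGroup.eq_one_iff _).2 (Subgroup.subset_normalClosure hx)
      rw [SetLike.mem_coe, Subgroup.mem_comap, h4]
      exact one_mem _
    · rw [SetLike.mem_coe, Subgroup.mem_comap, map_commutatorElement, map_mul, map_mul, map_zpow,
        map_zpow]
      exact Subgroup.subset_normalClosure ⟨i, hi, rfl⟩
  exact h3 h2

/-- **The soluble varieties whose finitely generated groups are residually finite.** For a soluble
variety `V` of groups the following are equivalent: every finitely generated group in `V` is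
residually finite; every 3-generator group in `V` is residually finite; the 3-generator group
`⟨b, m, t | [b, t^i m t^(-i)] = 1 (i ≠ 0)⟩` of `V` is residually finite; in this group `b` and `m`
commute; in every group of `V` an element `b` which commutes with all `t^i m t^(-i)`, `i ≠ 0`,
commutes with `m`; `V` satisfies a law `[b, m] = ∏ₖ γₖ [b, t^iₖ m t^(-iₖ)]^eₖ γₖ⁻¹` with all
`iₖ ≠ 0`; every finitely generated group in `V` satisfies the maximal condition on normal
subgroups; every finitely generated group in `V` is Hopfian; there are only countably many finitely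
generated groups in `V` up to isomorphism. -/
theorem result (W : Set (FreeGroup ℕ)) (hsol : SolubleVariety W) :
    List.TFAE [
      ∀ (G : Type) [Group G], Group.FG G → InVariety W G → ResiduallyFinite G,
      ∀ (G : Type) [Group G], ThreeGenerated G → InVariety W G → ResiduallyFinite G,
      ResiduallyFinite (TestGroup W),
      ⁅(FreeGroup.of 0 : FreeGroup (Fin 3)), FreeGroup.of 1⁆ ∈
        Subgroup.normalClosure (relators W),
      CommutationRule W,
      SatisfiesCommutatorLaw W,
      ∀ (G : Type) [Group G], Group.FG G → InVariety W G → MaxNormal G,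
      ∀ (G : Type) [Group G], Group.FG G → InVariety W G → Hopfian G,
      CountableVariety W] := by
  obtain ⟨d, hd⟩ := hsol
  have key : (∃ u : UI, ∀ (G : Type) [Group G], InVar W G → u.Grp G) →
      ∀ (G : Type) [Group G], Group.FG G → InVariety W G → RFin G ∧ MaxN G := by
    rintro ⟨u, hu⟩ G _ hfg hG
    exact ⟨rfin_main u d G (hu G hG) (hd G hG), (U_main u d G (hu G hG) (hd G hG)).2⟩
  have hrule : CommutationRule W → ∃ u : UI, ∀ (G : Type) [Group G], InVar W G → u.Grp G :=
    fun h => ui_of_rule W h
  tfae_have 1 → 2 := by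
    rintro h G _ ⟨a, b, c, habc⟩ hG
    classical
    refine h G ⟨⟨({a, b, c} : Finset G), ?_⟩⟩ hG
    rw [← habc]
    congr 1
    simp
  tfae_have 2 → 3 := fun h => h _ (test_three W) (test_inVariety W)
  tfae_have 3 → 6 := by
    intro h
    obtain ⟨u, hu⟩ := test_law W h
    exact ⟨u.n, u.w, u.i, u.e, u.hi, fun G _ hG => hu G hG⟩
  tfae_have 6 → 5 := by
    rintro ⟨n, γ, i, e, hi, h⟩ G _ hG b m t hc
    have h1 := h G hG b m t
    have h2 : ∀ k : Fin n, FreeGroup.lift ![b, m, t] (γ k) *
        ⁅b, t ^ (i k) * m * t ^ (-(i k))⁆ ^ (e k) * (FreeGroup.lift ![b, m, t] (γ k))⁻¹ = 1 := by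
      intro k
      have h3 : ⁅b, t ^ (i k) * m * t ^ (-(i k))⁆ = 1 :=
        commutatorElement_eq_one_iff_mul_comm.2 (hc (i k) (hi k))
      rw [h3, one_zpow, mul_one, mul_inv_cancel]
    have h4 : (List.ofFn fun k : Fin n => FreeGroup.lift ![b, m, t] (γ k) *
        ⁅b, t ^ (i k) * m * t ^ (-(i k))⁆ ^ (e k) *
        (FreeGroup.lift ![b, m, t] (γ k))⁻¹).prod = 1 := by
      apply List.prod_eq_one
      intro x hx
      rw [List.mem_ofFn] at hx
      obtain ⟨k, rfl⟩ := hx
      exact h2 k
    rw [h4] at h1
    exact commutatorElement_eq_one_iff_mul_comm.1 h1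
  tfae_have 5 → 4 := by
    intro h
    let q := QuotientGroup.mk' (Subgroup.normalClosure (relators W))
    have h1 := h (TestGroup W) (test_inVariety W) (q (FreeGroup.of 0)) (q (FreeGroup.of 1))
      (q (FreeGroup.of 2)) (by
      intro i hi
      have h2 : q ⁅(FreeGroup.of 0 : FreeGroup (Fin 3)),
          FreeGroup.of 2 ^ i * FreeGroup.of 1 * FreeGroup.of 2 ^ (-i)⁆ = 1 :=
        (QuotientGroup.eq_one_iff _).2 (Subgroup.subset_normalClosure (Or.inr ⟨i, hi, rfl⟩))
      rw [map_commutatorElement, commutatorElement_eq_one_iff_mul_comm, map_mul, map_mul,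
        map_zpow, map_zpow] at h2
      exact h2)
    have h2 : q ⁅(FreeGroup.of 0 : FreeGroup (Fin 3)), FreeGroup.of 1⁆ = 1 := by
      rw [map_commutatorElement, commutatorElement_eq_one_iff_mul_comm]
      exact h1
    exact (QuotientGroup.eq_one_iff _).1 h2
  tfae_have 4 → 5 := by
    intro h G _ hG b m t hc
    let φ : FreeGroup (Fin 3) →* G := FreeGroup.lift ![b, m, t]
    have h1 : Subgroup.normalClosure (relators W) ≤ φ.ker := by
      apply Subgroup.normalClosure_le_normal
      rintro x (⟨w, hw, f, rfl⟩ | ⟨i, hi, rfl⟩)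
      · have h2 : φ.comp (FreeGroup.lift f) = FreeGroup.lift (fun k => φ (f k)) := by
          apply FreeGroup.ext_hom
          intro k
          simp
        have h3 : φ (FreeGroup.lift f w) = FreeGroup.lift (fun k => φ (f k)) w := by
          rw [← h2]; rfl
        rw [SetLike.mem_coe, MonoidHom.mem_ker, h3]
        exact hG w hw _
      · rw [SetLike.mem_coe, MonoidHom.mem_ker, map_commutatorElement,
          commutatorElement_eq_one_iff_mul_comm]
        have h4 := hc i hi
        simpa [φ] using h4.eq
    have h5 := h1 h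
    rw [MonoidHom.mem_ker, map_commutatorElement, commutatorElement_eq_one_iff_mul_comm] at h5
    show b * m = m * b
    simpa [φ] using h5
  tfae_have 5 → 1 := fun h G _ hfg hG => (key (hrule h) G hfg hG).1
  tfae_have 5 → 7 := fun h G _ hfg hG N hN =>
    (key (hrule h) G hfg hG).2.normalClosure N hN
  tfae_have 7 → 8 := by
    intro h G _ hfg hG φ hφ
    exact hopfian_of_maxN (maxN_of_closure (h G hfg hG)) φ hφ
  tfae_have 8 → 6 := by
    intro h
    have hq : QHopf (RF W 3) := by
      intro N _ φ hφ
      have hfg : Group.FG (RF W 3 ⧸ N) := QuotientGroup.fg _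
      exact h _ hfg ((RF_inVar W 3).quot N) φ hφ
    obtain ⟨u, hu⟩ := exists_UI W hq
    exact ⟨u.n, u.w, u.i, u.e, u.hi, fun G _ hG => hu G hG⟩
  tfae_have 5 → 9 := by
    intro h ι G _ hfg hG hne
    refine countable_of_maxN W (fun n => ?_) ι G hfg hG hne
    have : Group.FG (RF W n) := QuotientGroup.fg _
    exact (key (hrule h) (RF W n) this (RF_inVar W n)).2
  tfae_have 9 → 6 := by
    intro h
    have hs : SmallVar W := by
      intro ι G _ hfg hG hne
      have := h ι G hfg hG hne
      exact (Cardinal.mk_le_aleph0_iff.2 this).trans_lt Cardinal.aleph0_lt_continuum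
    obtain ⟨u, hu⟩ := exists_UI_small hs
    exact ⟨u.n, u.w, u.i, u.e, u.hi, fun G _ hG => hu G hG⟩
  tfae_finish

end Pool.Agent.Results.MP_364ede_al.Classification
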